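import Pool.Agent.Lib.MP_af4f85_ag.Hedge.Formal2

/-!
MP_af4f85_ag, Q1, the formal form over every field of characteristic zero.  Let
`φ : k[[y₁, …, yₙ]] → k[[x₁, …, xₙ]]` be a finite homomorphism of `k`-algebras and `P` an ideal of
`k[[y]]`.  If `k[[x]] / √(P k[[x]])` is a power series ring in `s` variables over `k`, then so is
`k[[y]] / √P`.
-/

set_option autoImplicit false

namespace Pool.Agent.Results.MP_af4f85_ag.FormalGerms

/-- Over a field `k` of characteristic zero, let `φ` be a finite endomorphism of the `k`-algebra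
`k[[x₁, …, xₙ]]` and `P` an ideal. If the quotient by the radical of the extension of `P` is
isomorphic to `k[[w₁, …, w_s]]`, then so is the quotient by the radical of `P`. -/
theorem result (k : Type*) [Field k] [CharZero k] (n s : ℕ)
    (φ : MvPowerSeries (Fin n) k →ₐ[k] MvPowerSeries (Fin n) k)
    (hφ : (φ : MvPowerSeries (Fin n) k →+* MvPowerSeries (Fin n) k).Finite)
    (P : Ideal (MvPowerSeries (Fin n) k))
    (h : Nonempty ((MvPowerSeries (Fin n) k ⧸
      (P.map (φ : MvPowerSeries (Fin n) k →+* MvPowerSeries (Fin n) k)).radical) ≃ₐ[k]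
        MvPowerSeries (Fin s) k)) :
    Nonempty ((MvPowerSeries (Fin n) k ⧸ P.radical) ≃ₐ[k] MvPowerSeries (Fin s) k) :=
  Pool.Agent.Lib.MP_af4f85_ag.formal_main n s φ hφ P h

end Pool.Agent.Results.MP_af4f85_ag.FormalGerms
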