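import Pool.Agent.Lib.MP_af4f85_ag.Hedge.Chart

/-!
MP_af4f85_ag, Q1: the answer is yes.  Let `f` be a finite holomorphic map germ
`(ℂⁿ, a) → (ℂⁿ, f a)` and `V` a germ of complex analytic subvariety at `f a`.  If `f⁻¹(V)` is a
manifold germ at `a`, then `V` is a manifold germ at `f a`, of the same codimension.
-/

set_option autoImplicit false

open Filter Topology

namespace Pool.Agent.Results.MP_af4f85_ag.SmoothPreimage

/-- `V` is a complex analytic subvariety near `b`: in a neighbourhood of `b` it is the set of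
common zeros of finitely many holomorphic functions. -/
def IsVarietyNear {n : ℕ} (V : Set (Fin n → ℂ)) (b : Fin n → ℂ) : Prop :=
  ∃ (m : ℕ) (g : Fin m → (Fin n → ℂ) → ℂ), (∀ j, AnalyticAt ℂ (g j) b) ∧
    ∀ᶠ z in 𝓝 b, z ∈ V ↔ ∀ j, g j z = 0

/-- `M ⊆ ℂⁿ` is, near its point `p`, a complex submanifold of codimension `r`: there is a
biholomorphic map `Φ` of an open neighbourhood of `p` onto an open subset of `ℂⁿ` such that, in this
neighbourhood, `M` is the set where the first `r` coordinates of `Φ` vanish. -/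
def IsSubmanifoldAt {n : ℕ} (r : ℕ) (M : Set (Fin n → ℂ)) (p : Fin n → ℂ) : Prop :=
  r ≤ n ∧ p ∈ M ∧ ∃ Φ : OpenPartialHomeomorph (Fin n → ℂ) (Fin n → ℂ), p ∈ Φ.source ∧
    AnalyticOnNhd ℂ Φ Φ.source ∧ AnalyticOnNhd ℂ Φ.symm Φ.target ∧
    ∀ z ∈ Φ.source, z ∈ M ↔ ∀ i : Fin n, (i : ℕ) < r → Φ z i = 0

/-- The germ of `M` at `p` is a manifold: in some open neighbourhood of `p`, `M` is a complex
submanifold. -/
def IsManifoldGerm {n : ℕ} (M : Set (Fin n → ℂ)) (p : Fin n → ℂ) : Prop :=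
  ∃ U : Set (Fin n → ℂ), IsOpen U ∧ p ∈ U ∧ ∀ z ∈ U, z ∈ M → ∃ r, IsSubmanifoldAt r M z

theorem same_codim (n : ℕ) (f : (Fin n → ℂ) → (Fin n → ℂ)) (a : Fin n → ℂ)
    (V : Set (Fin n → ℂ)) (hf : AnalyticAt ℂ f a) (hfin : ∀ᶠ z in 𝓝 a, f z = f a → z = a)
    (hV : IsVarietyNear V (f a)) (r : ℕ) (h : IsSubmanifoldAt r (f ⁻¹' V) a) :
    IsSubmanifoldAt r V (f a) := by
  obtain ⟨m, g, hg, hgV⟩ := hV
  obtain ⟨hr, ha, Φ, h1, h2, h3, h4⟩ := h
  refine ⟨hr, ha, Pool.Agent.Lib.MP_af4f85_ag.smooth_image hr f V a hf hfin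
    (fun z j => g j z) (analyticAt_pi_iff.mpr hg) ?_ Φ h1 ha h2 h3 h4⟩
  filter_upwards [hgV] with z hz
  rw [hz]
  exact ⟨fun h => funext h, fun h j => congrFun h j⟩

theorem submanifold_near {n : ℕ} {r : ℕ} {M : Set (Fin n → ℂ)} {p : Fin n → ℂ}
    (h : IsSubmanifoldAt r M p) : IsManifoldGerm M p := by
  obtain ⟨hr, -, Φ, h1, h2, h3, h4⟩ := h
  exact ⟨Φ.source, Φ.open_source, h1, fun z hz hzM => ⟨r, hr, hzM, Φ, hz, h2, h3, h4⟩⟩

/-- Let `f` be a finite holomorphic map germ `(ℂⁿ, a) → (ℂⁿ, f a)` and let `V` be a complex analytic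
subvariety near `f a`. If `f⁻¹(V)` is a manifold germ at `a`, then `V` is a manifold germ at `f a`;
and if `f⁻¹(V)` is a submanifold of codimension `r` near its point `a`, then `V` is a submanifold of
the same codimension `r` near its point `f a`. -/
theorem result (n : ℕ) (f : (Fin n → ℂ) → (Fin n → ℂ)) (a : Fin n → ℂ)
    (V : Set (Fin n → ℂ)) (hf : AnalyticAt ℂ f a) (hfin : ∀ᶠ z in 𝓝 a, f z = f a → z = a)
    (hV : IsVarietyNear V (f a)) :
    (IsManifoldGerm (f ⁻¹' V) a → IsManifoldGerm V (f a)) ∧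
      ∀ r : ℕ, IsSubmanifoldAt r (f ⁻¹' V) a → IsSubmanifoldAt r V (f a) := by
  refine ⟨?_, same_codim n f a V hf hfin hV⟩
  rintro ⟨U, hU, haU, hM⟩
  by_cases ha : f a ∈ V
  · obtain ⟨r, hr⟩ := hM a haU ha
    exact submanifold_near (same_codim n f a V hf hfin hV r hr)
  · obtain ⟨m, g, hg, hgV⟩ := hV
    have h1 : ∃ j, g j (f a) ≠ 0 := by
      by_contra hcon
      push Not at hcon
      exact ha (hgV.self_of_nhds.mpr hcon)
    obtain ⟨j, hj⟩ := h1
    have h2 : ∀ᶠ z in 𝓝 (f a), z ∉ V := by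
      filter_upwards [hgV, (hg j).continuousAt.eventually_ne hj] with z h3 h4 h5
      exact h4 (h3.mp h5 j)
    obtain ⟨t, ht, hto, hbt⟩ := eventually_nhds_iff.mp h2
    exact ⟨t, hto, hbt, fun z hz hzV => absurd hzV (ht z hz)⟩

end Pool.Agent.Results.MP_af4f85_ag.SmoothPreimage
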